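import Pool.Agent.Helper9.VB.Vis
import Pool.Agent.Helper58.VW.Exch

/-!
# Visible bodies: spanning

If every covector of the dual unit sphere is seen by a finite family of vectors, then some `N` of them span every vector
with bounded coefficients; a finite net of covectors is enough.
-/

set_option autoImplicit false

namespace Pool.Agent.Helper9.VB

open Finset Matrix

variable {N : ℕ}

/-- if every covector is seen, some subfamily is independent -/
theorem exists_det_ne {ι : Type*} (x : ι → Fin N → ℝ) {c : ℝ} (hc : 0 < c)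
    (h : ∀ ν : Fin N → ℝ, ∑ i, |ν i| = 1 → ∃ k, c ≤ |ν ⬝ᵥ x k|) :
    ∃ s : Fin N → ι, (Matrix.of fun i => x (s i)).det ≠ 0 := by
  have hspan : Submodule.span ℝ (Set.range x) = ⊤ := by
    by_contra hne
    obtain ⟨f, hf, hker⟩ := Submodule.exists_le_ker_of_lt_top _ (lt_top_iff_ne_top.mpr hne)
    -- the covector of `f`
    set ν : Fin N → ℝ := fun i => f (Pi.single i 1) with hν
    have hfν : ∀ y : Fin N → ℝ, f y = ν ⬝ᵥ y := by
      intro y
      have e1 : y = ∑ i, y i • (Pi.single i (1 : ℝ) : Fin N → ℝ) := by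
        funext j
        rw [Finset.sum_apply, Finset.sum_eq_single j]
        · simp
        · intro i _ hi
          simp [Pi.single_eq_of_ne hi.symm]
        · intro hj
          exact absurd (Finset.mem_univ j) hj
      conv_lhs => rw [e1]
      rw [map_sum]
      unfold dotProduct
      refine Finset.sum_congr rfl fun i _ => ?_
      rw [map_smul, smul_eq_mul, hν, mul_comm]
    have hpos : 0 < ∑ i, |ν i| := by
      apply lt_of_le_of_ne (Finset.sum_nonneg fun i _ => abs_nonneg _)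
      intro h0
      apply hf
      ext i
      have h1 := (Finset.sum_eq_zero_iff_of_nonneg fun i _ => abs_nonneg (ν i)).mp h0.symm i (Finset.mem_univ i)
      have h2 : ν i = 0 := abs_eq_zero.mp h1
      simpa [hν] using h2
    set m := ∑ i, |ν i| with hm
    obtain ⟨k, hk⟩ := h (fun i => ν i / m) (by
      have : ∀ i, |ν i / m| = |ν i| / m := fun i => by rw [abs_div, abs_of_pos hpos]
      simp only [this]
      rw [← Finset.sum_div, ← hm, div_self hpos.ne'])
    have h2 : (fun i => ν i / m) ⬝ᵥ x k = 0 := by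
      have h3 : f (x k) = 0 := hker (Submodule.subset_span ⟨k, rfl⟩)
      rw [hfν] at h3
      have e1 : (fun i => ν i / m) ⬝ᵥ x k = (ν ⬝ᵥ x k) / m := by
        unfold dotProduct
        rw [Finset.sum_div]
        refine Finset.sum_congr rfl fun i _ => ?_
        ring
      rw [e1, h3, zero_div]
    rw [h2, abs_zero] at hk
    linarith
  obtain ⟨κ, a, -, ha, hli⟩ := exists_linearIndependent' ℝ x
  have hb : ⊤ ≤ Submodule.span ℝ (Set.range (x ∘ a)) := by rw [ha, hspan]
  set B := Module.Basis.mk hli hb with hB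
  have : Fintype κ := FiniteDimensional.fintypeBasisIndex B
  have hcard : Fintype.card κ = N := by
    have h1 := Module.finrank_eq_card_basis B
    rw [Module.finrank_fin_fun] at h1
    exact h1.symm
  set e : Fin N ≃ κ := (Fintype.equivFinOfCardEq hcard).symm with he
  refine ⟨a ∘ e, ?_⟩
  have hli2 : LinearIndependent ℝ (fun i => x (a (e i))) := hli.comp e e.injective
  have h3 : IsUnit (Matrix.of fun i => x ((a ∘ e) i)) := by
    rw [← Matrix.linearIndependent_rows_iff_isUnit]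
    exact hli2
  exact ((Matrix.isUnit_iff_isUnit_det _).mp h3).ne_zero

/-- **SPANNING**: some `N` of the vectors span every vector with coefficients at most `‖v‖ / c`, and all the others with
coefficients at most one -/
theorem span_of_seen {ι : Type*} [Finite ι] (x : ι → Fin N → ℝ) {c : ℝ} (hc : 0 < c)
    (h : ∀ ν : Fin N → ℝ, ∑ i, |ν i| = 1 → ∃ k, c ≤ |ν ⬝ᵥ x k|) :
    ∃ s : Fin N → ι, (Matrix.of fun i => x (s i)).det ≠ 0 ∧
      (∀ k, ∃ t : Fin N → ℝ, (∀ i, |t i| ≤ 1) ∧ x k = ∑ i, t i • x (s i)) ∧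
      ∀ v : Fin N → ℝ, ∃ t : Fin N → ℝ, (∀ i, |t i| ≤ ‖v‖ / c) ∧ v = ∑ i, t i • x (s i) := by
  obtain ⟨s0, hs0⟩ := exists_det_ne x hc h
  have : Nonempty (Fin N → ι) := ⟨s0⟩
  obtain ⟨s, hs⟩ := Finite.exists_max fun s : Fin N → ι => |(Matrix.of fun i => x (s i)).det|
  have hdet : (Matrix.of fun i => x (s i)).det ≠ 0 := by
    have := (abs_pos.mpr hs0).trans_le (hs s0)
    exact abs_pos.mp this
  set M : Matrix (Fin N) (Fin N) ℝ := Matrix.of fun i => x (s i) with hM
  have hu : IsUnit M.det := isUnit_iff_ne_zero.mpr hdet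
  have hin : ∀ k, Pool.Agent.Helper58.VW.InBox M (x k) := by
    intro k
    apply Pool.Agent.Helper58.VW.inBox_of_det M hdet
    intro i
    have h1 := hs (Function.update s i k)
    have e1 : (Matrix.of fun j => x (Function.update s i k j)) = M.updateRow i (x k) := by
      ext j l
      by_cases hj : j = i
      · subst hj
        simp [hM]
      · simp [hM, Function.update_of_ne hj, Matrix.updateRow_ne hj]
    rw [e1] at h1
    exact h1
  refine ⟨s, hdet, fun k => ?_, fun v => ?_⟩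
  · obtain ⟨t, ht, hx⟩ := hin k
    exact ⟨t, ht, hx⟩
  · refine ⟨v ᵥ* M⁻¹, fun i => ?_, ?_⟩
    · -- the `i`-th column of the inverse
      set μ : Fin N → ℝ := fun j => M⁻¹ j i with hμ
      have hμx : ∀ k, |μ ⬝ᵥ x k| ≤ 1 := by
        intro k
        have h1 := (Pool.Agent.Helper58.VW.inBox_iff M hdet (x k)).mp (hin k) i
        have e1 : (x k ᵥ* M⁻¹) i = μ ⬝ᵥ x k := by
          rw [dotProduct_comm]
          rfl
        rw [e1] at h1
        exact h1
      have e2 : (v ᵥ* M⁻¹) i = μ ⬝ᵥ v := by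
        rw [dotProduct_comm]
        rfl
      rw [e2]
      set m := ∑ j, |μ j| with hm
      have hm1 : m ≤ 1 / c := by
        rcases eq_or_lt_of_le (show 0 ≤ m from Finset.sum_nonneg fun j _ => abs_nonneg _) with h0 | h0
        · rw [← h0]
          positivity
        · obtain ⟨k, hk⟩ := h (fun j => μ j / m) (by
            have : ∀ j, |μ j / m| = |μ j| / m := fun j => by rw [abs_div, abs_of_pos h0]
            simp only [this]
            rw [← Finset.sum_div, ← hm, div_self h0.ne'])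
          have e3 : (fun j => μ j / m) ⬝ᵥ x k = (μ ⬝ᵥ x k) / m := by
            unfold dotProduct
            rw [Finset.sum_div]
            refine Finset.sum_congr rfl fun j _ => ?_
            ring
          rw [e3, abs_div, abs_of_pos h0, le_div_iff₀ h0] at hk
          rw [le_div_iff₀ hc, mul_comm]
          exact hk.trans (hμx k)
      have h2 : |μ ⬝ᵥ v| ≤ m * ‖v‖ := by
        unfold dotProduct
        refine (Finset.abs_sum_le_sum_abs _ _).trans ?_
        rw [hm, Finset.sum_mul]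
        refine Finset.sum_le_sum fun j _ => ?_
        rw [abs_mul]
        exact mul_le_mul_of_nonneg_left (norm_le_pi_norm v j) (abs_nonneg _)
      refine h2.trans ?_
      have := mul_le_mul_of_nonneg_right hm1 (norm_nonneg v)
      calc m * ‖v‖ ≤ 1 / c * ‖v‖ := this
        _ = ‖v‖ / c := by ring
    · have h1 : (∑ i, (v ᵥ* M⁻¹) i • M i) = (v ᵥ* M⁻¹) ᵥ* M := by
        ext j
        rw [Finset.sum_apply]
        rfl
      have h2 : (v ᵥ* M⁻¹) ᵥ* M = v := by
        rw [Matrix.vecMul_vecMul, Matrix.nonsing_inv_mul _ hu, Matrix.vecMul_one]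
      calc v = (v ᵥ* M⁻¹) ᵥ* M := h2.symm
        _ = ∑ i, (v ᵥ* M⁻¹) i • M i := h1.symm
        _ = _ := rfl

/-- the dual unit sphere -/
def Sph (N : ℕ) : Set (Fin N → ℝ) := {ν | ∑ i, |ν i| = 1}

/-- a finite net of covectors, in the `ℓ1` distance -/
theorem exists_net (N : ℕ) {ε : ℝ} (hε : 0 < ε) : ∃ S : Finset (Fin N → ℝ), (∀ ν ∈ S, ν ∈ Sph N) ∧
    ∀ ν ∈ Sph N, ∃ ν' ∈ S, ∑ i, |ν i - ν' i| ≤ ε := by
  have hcl : IsCompact (Sph N) := by
    apply Metric.isCompact_of_isClosed_isBounded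
    · exact isClosed_eq (by fun_prop) continuous_const
    · rw [isBounded_iff_forall_norm_le]
      refine ⟨1, fun ν hν => ?_⟩
      rw [pi_norm_le_iff_of_nonneg zero_le_one]
      intro i
      have h1 : |ν i| ≤ ∑ j, |ν j| := Finset.single_le_sum (f := fun j => |ν j|) (fun j _ => abs_nonneg _)
        (Finset.mem_univ i)
      rw [show ∑ j, |ν j| = 1 from hν] at h1
      exact h1
  have hε' : 0 < ε / (N + 1) := by positivity
  obtain ⟨t, ht, htf, hcov⟩ := hcl.finite_cover_balls hε'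
  refine ⟨htf.toFinset, fun ν hν => ht (htf.mem_toFinset.mp hν), fun ν hν => ?_⟩
  have h1 := hcov hν
  rw [Set.mem_iUnion₂] at h1
  obtain ⟨ν', hν', hd⟩ := h1
  refine ⟨ν', htf.mem_toFinset.mpr hν', ?_⟩
  rw [Metric.mem_ball, dist_eq_norm] at hd
  have h2 : ∀ i, |ν i - ν' i| ≤ ε / (N + 1) := fun i => by
    have := norm_le_pi_norm (ν - ν') i
    rw [Pi.sub_apply, Real.norm_eq_abs] at this
    linarith
  calc ∑ i, |ν i - ν' i| ≤ ∑ _i : Fin N, ε / (N + 1) := Finset.sum_le_sum fun i _ => h2 i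
    _ = N * (ε / (N + 1)) := by rw [Finset.sum_const, Finset.card_univ, Fintype.card_fin, nsmul_eq_mul]
    _ ≤ ε := by
      rw [mul_div_assoc', div_le_iff₀ (by positivity)]
      nlinarith

/-- truncation -/
noncomputable def tr (x : Fin N → ℝ) : Fin N → ℝ := (1 / max 1 ‖x‖) • x

theorem tr_norm (x : Fin N → ℝ) : ‖tr x‖ ≤ 1 := by
  unfold tr
  have h1 : 0 < max 1 ‖x‖ := lt_of_lt_of_le one_pos (le_max_left _ _)
  rw [norm_smul, Real.norm_eq_abs, abs_of_pos (by positivity), one_div, inv_mul_le_iff₀ h1, mul_one]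
  exact le_max_right _ _

theorem tr_of_le {x : Fin N → ℝ} (h : ‖x‖ ≤ 1) : tr x = x := by
  unfold tr
  rw [max_eq_left h, div_one, one_smul]

theorem dot_tr (ν x : Fin N → ℝ) : |ν ⬝ᵥ tr x| = |ν ⬝ᵥ x| / max 1 ‖x‖ := by
  have h1 : 0 < max 1 ‖x‖ := lt_of_lt_of_le one_pos (le_max_left _ _)
  unfold tr
  rw [dotProduct_smul, smul_eq_mul, abs_mul, abs_of_pos (by positivity)]
  ring

/-- seen by the truncated vectors -/
theorem seen_iff (ν x : Fin N → ℝ) (c : ℝ) : c ≤ |ν ⬝ᵥ tr x| ↔ c * max 1 ‖x‖ ≤ |ν ⬝ᵥ x| := by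
  rw [dot_tr, le_div_iff₀ (lt_of_lt_of_le one_pos (le_max_left _ _))]

/-- a net is enough for vectors of size at most one -/
theorem seen_of_net {ι : Type*} (x : ι → Fin N → ℝ) (hx : ∀ k, ‖x k‖ ≤ 1) {c ε : ℝ} (S : Finset (Fin N → ℝ))
    (hS : ∀ ν ∈ Sph N, ∃ ν' ∈ S, ∑ i, |ν i - ν' i| ≤ ε) (h : ∀ ν ∈ S, ∃ k, c ≤ |ν ⬝ᵥ x k|) :
    ∀ ν : Fin N → ℝ, ∑ i, |ν i| = 1 → ∃ k, c - ε ≤ |ν ⬝ᵥ x k| := by
  intro ν hν
  obtain ⟨ν', hν', hd⟩ := hS ν hν
  obtain ⟨k, hk⟩ := h ν' hν'
  refine ⟨k, ?_⟩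
  have h1 : |(ν - ν') ⬝ᵥ x k| ≤ ε := by
    unfold dotProduct
    refine (Finset.abs_sum_le_sum_abs _ _).trans (le_trans (Finset.sum_le_sum fun i _ => ?_) hd)
    rw [abs_mul, Pi.sub_apply]
    have h2 := (norm_le_pi_norm (x k) i).trans (hx k)
    rw [Real.norm_eq_abs] at h2
    have := abs_nonneg (ν i - ν' i)
    nlinarith
  rw [sub_dotProduct] at h1
  have h2 := abs_sub_abs_le_abs_sub (ν' ⬝ᵥ x k) (ν ⬝ᵥ x k)
  rw [abs_sub_comm] at h1
  linarith

end Pool.Agent.Helper9.VB
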