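import Mathlib

/-!
# Visible bodies (theorem FW)

For a finite law of vectors `Δ` in `ℝ ^ N` there is a frame `A` (the body is `‖A x‖ ≤ 1`) such that all but `(N + 1) κ`
of the mass lies in the body and every covector of the dual unit sphere is seen by a mass `≥ κ / (3 + log N)` of
TRUNCATED vectors `x / max 1 ‖A x‖` (or by a floor vector): the sizes of the vectors outside the body and cancellations
between them play no role.
-/

set_option autoImplicit false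

namespace Pool.Agent.Helper9.VB

open Finset Matrix

noncomputable section

/-- the price of a vector of size `r` -/
def rho (r : ℝ) : ℝ := if r ≤ 1 then 0 else 1 + Real.logb 2 r

theorem rho_nonneg (r : ℝ) : 0 ≤ rho r := by
  unfold rho
  split_ifs with h
  · exact le_rfl
  · push Not at h
    have := Real.logb_nonneg (b := 2) (by norm_num) h.le
    linarith

theorem rho_of_le {r : ℝ} (h : r ≤ 1) : rho r = 0 := if_pos h

theorem rho_of_gt {r : ℝ} (h : 1 < r) : rho r = 1 + Real.logb 2 r := if_neg (not_le.mpr h)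

theorem rho_mono {r s : ℝ} (h : r ≤ s) : rho r ≤ rho s := by
  rcases le_or_gt r 1 with h1 | h1
  · rw [rho_of_le h1]
    exact rho_nonneg s
  · rw [rho_of_gt h1, rho_of_gt (h1.trans_le h)]
    have := Real.logb_le_logb_of_le (b := 2) (by norm_num) (by linarith : (0 : ℝ) < r) h
    linarith

/-- nothing is paid up to size one -/
theorem rho_max (r : ℝ) : rho (max 1 r) = rho r := by
  rcases le_or_gt r 1 with h1 | h1
  · rw [max_eq_left h1, rho_of_le le_rfl, rho_of_le h1]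
  · rw [max_eq_right h1.le]

/-- `ρ ≥ log` -/
theorem log_le_rho {r : ℝ} (h : 0 < r) : Real.logb 2 r ≤ rho r := by
  rcases le_or_gt r 1 with h1 | h1
  · rw [rho_of_le h1]
    exact Real.logb_nonpos (by norm_num) h.le h1
  · rw [rho_of_gt h1]
    linarith

/-- halving -/
theorem rho_half (r : ℝ) : rho (r / 2) ≤ rho r - (if 1 < r then 1 else 0) := by
  split_ifs with h
  · rw [rho_of_gt h]
    rcases le_or_gt (r / 2) 1 with h1 | h1
    · rw [rho_of_le h1]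
      have := Real.logb_nonneg (b := 2) (by norm_num) h.le
      linarith
    · rw [rho_of_gt h1, Real.logb_div (by linarith) (by norm_num), Real.logb_self_eq_one (by norm_num)]
      linarith
  · push Not at h
    rw [rho_of_le (by linarith : r / 2 ≤ 1), rho_of_le h]
    norm_num

/-- the price grows by at most `1 + log (1 / c)` under an enlargement by `1 / c` -/
theorem rho_mul {r c : ℝ} (hc : 0 < c) (hc1 : c ≤ 1) :
    rho (r / c) ≤ rho r + (1 + Real.logb 2 (1 / c)) := by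
  have hl : 0 ≤ Real.logb 2 (1 / c) := Real.logb_nonneg (by norm_num) (by rw [le_div_iff₀ hc]; linarith)
  rcases le_or_gt (r / c) 1 with h1 | h1
  · rw [rho_of_le h1]
    have := rho_nonneg r
    linarith
  · have hr : 0 < r := by
      by_contra h
      push Not at h
      have : r / c ≤ 0 := div_nonpos_of_nonpos_of_nonneg h hc.le
      linarith
    have e1 : Real.logb 2 (r / c) = Real.logb 2 r + Real.logb 2 (1 / c) := by
      rw [← Real.logb_mul hr.ne' (by positivity)]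
      congr 1
      ring
    rw [rho_of_gt h1, e1]
    have := log_le_rho hr
    linarith

variable {Ω : Type} [Fintype Ω] {N : ℕ}

/-- the functional of a frame -/
def Gf (w : Ω → ℝ) (Δ : Ω → Fin N → ℝ) (κ g L : ℝ) (A : Matrix (Fin N) (Fin N) ℝ) : ℝ :=
  -Real.logb 2 |A.det| + (1 / κ) * ∑ ω, w ω * rho ‖A *ᵥ Δ ω‖ + L * ∑ i, rho ‖A *ᵥ (Pi.single i g : Fin N → ℝ)‖

/-- the determinant is at most `N!` times the product of the sizes of the columns -/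
theorem det_le_cols (A : Matrix (Fin N) (Fin N) ℝ) (a : Fin N → ℝ) (ha : ∀ i j, |A i j| ≤ a j) :
    |A.det| ≤ (Nat.factorial N : ℝ) * ∏ j, a j := by
  rw [Matrix.det_apply]
  refine (Finset.abs_sum_le_sum_abs _ _).trans ?_
  have h1 : ∀ σ : Equiv.Perm (Fin N), σ ∈ (Finset.univ : Finset (Equiv.Perm (Fin N))) →
      |Equiv.Perm.sign σ • ∏ i, A (σ i) i| ≤ ∏ j, a j := by
    intro σ _
    have e1 : |Equiv.Perm.sign σ • ∏ i, A (σ i) i| = |∏ i, A (σ i) i| := by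
      rcases Int.units_eq_one_or (Equiv.Perm.sign σ) with h | h
      · rw [h, one_smul]
      · rw [h, Units.neg_smul, one_smul, abs_neg]
    rw [e1, Finset.abs_prod]
    exact Finset.prod_le_prod (fun i _ => abs_nonneg _) fun i _ => ha _ _
  refine (Finset.sum_le_sum h1).trans ?_
  rw [Finset.sum_const, Finset.card_univ, Fintype.card_perm, Fintype.card_fin, nsmul_eq_mul]

theorem mulVec_single' (A : Matrix (Fin N) (Fin N) ℝ) (i : Fin N) (g : ℝ) (k : Fin N) :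
    (A *ᵥ (Pi.single i g : Fin N → ℝ)) k = A k i * g := by
  rw [Matrix.mulVec_single]
  simp

/-- the functional is bounded below -/
theorem Gf_low (w : Ω → ℝ) (hw : ∀ ω, 0 ≤ w ω) (Δ : Ω → Fin N → ℝ) {κ g L : ℝ} (hκ : 0 < κ) (hg : 0 < g)
    (hL : 1 ≤ L) (A : Matrix (Fin N) (Fin N) ℝ) (hA : A.det ≠ 0) :
    N * Real.logb 2 g - Real.logb 2 (Nat.factorial N) ≤ Gf w Δ κ g L A := by
  have hcol : ∀ i : Fin N, 0 < ‖A *ᵥ (Pi.single i g : Fin N → ℝ)‖ := by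
    intro i
    rw [norm_pos_iff]
    intro h
    apply hA
    apply Matrix.det_eq_zero_of_column_eq_zero i
    intro k
    have h1 := congrFun h k
    rw [mulVec_single'] at h1
    exact (mul_eq_zero.mp h1).resolve_right hg.ne'
  have h1 : |A.det| ≤ (Nat.factorial N : ℝ) * ∏ i, (‖A *ᵥ (Pi.single i g : Fin N → ℝ)‖ / g) := by
    apply det_le_cols
    intro k i
    rw [le_div_iff₀ hg]
    have h2 := norm_le_pi_norm (A *ᵥ (Pi.single i g : Fin N → ℝ)) k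
    rw [mulVec_single', Real.norm_eq_abs, abs_mul, abs_of_pos hg] at h2
    exact h2
  have h2 : Real.logb 2 |A.det| ≤ Real.logb 2 (Nat.factorial N) +
      ∑ i, (Real.logb 2 ‖A *ᵥ (Pi.single i g : Fin N → ℝ)‖ - Real.logb 2 g) := by
    have h3 := Real.logb_le_logb_of_le (b := 2) (by norm_num) (abs_pos.mpr hA) h1
    rw [Real.logb_mul (by positivity) (Finset.prod_ne_zero_iff.mpr fun i _ => (div_pos (hcol i) hg).ne')] at h3
    refine h3.trans (le_of_eq ?_)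
    congr 1
    unfold Real.logb
    rw [Real.log_prod (fun i _ => (div_pos (hcol i) hg).ne'), Finset.sum_div]
    refine Finset.sum_congr rfl fun i _ => ?_
    rw [Real.log_div (hcol i).ne' hg.ne', sub_div]
  have h3 : ∑ i, (Real.logb 2 ‖A *ᵥ (Pi.single i g : Fin N → ℝ)‖ - Real.logb 2 g) =
      ∑ i, Real.logb 2 ‖A *ᵥ (Pi.single i g : Fin N → ℝ)‖ - N * Real.logb 2 g := by
    rw [Finset.sum_sub_distrib, Finset.sum_const, Finset.card_univ, Fintype.card_fin, nsmul_eq_mul]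
  rw [h3] at h2
  have h4 : ∑ i, Real.logb 2 ‖A *ᵥ (Pi.single i g : Fin N → ℝ)‖ ≤
      L * ∑ i, rho ‖A *ᵥ (Pi.single i g : Fin N → ℝ)‖ := by
    have h5 : ∑ i, Real.logb 2 ‖A *ᵥ (Pi.single i g : Fin N → ℝ)‖ ≤
        ∑ i, rho ‖A *ᵥ (Pi.single i g : Fin N → ℝ)‖ := Finset.sum_le_sum fun i _ => log_le_rho (hcol i)
    have h6 : 0 ≤ ∑ i, rho ‖A *ᵥ (Pi.single i g : Fin N → ℝ)‖ := Finset.sum_nonneg fun i _ => rho_nonneg _
    nlinarith
  have h5 : 0 ≤ (1 / κ) * ∑ ω, w ω * rho ‖A *ᵥ Δ ω‖ := by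
    apply mul_nonneg (by positivity)
    exact Finset.sum_nonneg fun ω _ => mul_nonneg (hw ω) (rho_nonneg _)
  unfold Gf
  linarith

/-- a near minimizer -/
theorem exists_near (w : Ω → ℝ) (hw : ∀ ω, 0 ≤ w ω) (Δ : Ω → Fin N → ℝ) {κ g L : ℝ} (hκ : 0 < κ) (hg : 0 < g)
    (hL : 1 ≤ L) : ∃ A : Matrix (Fin N) (Fin N) ℝ, A.det ≠ 0 ∧
      ∀ A' : Matrix (Fin N) (Fin N) ℝ, A'.det ≠ 0 → Gf w Δ κ g L A < Gf w Δ κ g L A' + 1 / 2 := by
  set T : Set ℝ := {x | ∃ A : Matrix (Fin N) (Fin N) ℝ, A.det ≠ 0 ∧ x = Gf w Δ κ g L A} with hT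
  have hne : T.Nonempty := ⟨Gf w Δ κ g L 1, 1, by simp, rfl⟩
  have hbd : BddBelow T := ⟨N * Real.logb 2 g - Real.logb 2 (Nat.factorial N), by
    rintro x ⟨A, hA, rfl⟩
    exact Gf_low w hw Δ hκ hg hL A hA⟩
  obtain ⟨x, ⟨A, hA, rfl⟩, hx⟩ := exists_lt_of_csInf_lt hne (show sInf T < sInf T + 1 / 2 by linarith)
  refine ⟨A, hA, fun A' hA' => ?_⟩
  have := csInf_le hbd ⟨A', hA', rfl⟩
  linarith

open Classical in
/-- (i): nearly nothing is outside -/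
theorem near_out (w : Ω → ℝ) (Δ : Ω → Fin N → ℝ) {κ g : ℝ} (hκ : 0 < κ) (hw : ∀ ω, 0 ≤ w ω)
    (A : Matrix (Fin N) (Fin N) ℝ) (hA : A.det ≠ 0)
    (hmin : ∀ A' : Matrix (Fin N) (Fin N) ℝ, A'.det ≠ 0 → Gf w Δ κ g (N + 1) A < Gf w Δ κ g (N + 1) A' + 1 / 2) :
    ∑ ω ∈ univ.filter (fun ω => 1 < ‖A *ᵥ Δ ω‖), w ω ≤ (N + 1) * κ ∧
      ∀ i, ‖A *ᵥ (Pi.single i g : Fin N → ℝ)‖ ≤ 1 := by
  have hA2 : ((1 / 2 : ℝ) • A).det = (1 / 2) ^ N * A.det := by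
    rw [Matrix.det_smul, Fintype.card_fin]
  have h0 : ((1 / 2 : ℝ) • A).det ≠ 0 := by
    rw [hA2]
    exact mul_ne_zero (by positivity) hA
  have hd : -Real.logb 2 |((1 / 2 : ℝ) • A).det| = -Real.logb 2 |A.det| + N := by
    rw [hA2, abs_mul, Real.logb_mul (by positivity) (abs_pos.mpr hA).ne', abs_of_pos (by positivity),
      Real.logb_pow, Real.logb_div (by norm_num) (by norm_num), Real.logb_one,
      Real.logb_self_eq_one (by norm_num)]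
    ring
  have hn : ∀ x : Fin N → ℝ, ‖((1 / 2 : ℝ) • A) *ᵥ x‖ = ‖A *ᵥ x‖ / 2 := by
    intro x
    rw [Matrix.smul_mulVec, norm_smul, Real.norm_eq_abs, abs_of_pos (by norm_num)]
    ring
  have h1 : ∀ x : Fin N → ℝ, rho ‖((1 / 2 : ℝ) • A) *ᵥ x‖ ≤
      rho ‖A *ᵥ x‖ - (if 1 < ‖A *ᵥ x‖ then 1 else 0) := by
    intro x
    rw [hn]
    exact rho_half _
  have h2 : ∑ ω, w ω * rho ‖((1 / 2 : ℝ) • A) *ᵥ Δ ω‖ ≤
      ∑ ω, w ω * rho ‖A *ᵥ Δ ω‖ - ∑ ω ∈ univ.filter (fun ω => 1 < ‖A *ᵥ Δ ω‖), w ω := by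
    have h3 : ∀ ω ∈ (univ : Finset Ω), w ω * rho ‖((1 / 2 : ℝ) • A) *ᵥ Δ ω‖ ≤
        w ω * rho ‖A *ᵥ Δ ω‖ - (if 1 < ‖A *ᵥ Δ ω‖ then w ω else 0) := by
      intro ω _
      have h4 := mul_le_mul_of_nonneg_left (h1 (Δ ω)) (hw ω)
      refine h4.trans (le_of_eq ?_)
      split_ifs <;> ring
    refine (Finset.sum_le_sum h3).trans (le_of_eq ?_)
    rw [Finset.sum_sub_distrib, Finset.sum_filter]
  have h3 : ∑ i, rho ‖((1 / 2 : ℝ) • A) *ᵥ (Pi.single i g : Fin N → ℝ)‖ ≤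
      ∑ i, rho ‖A *ᵥ (Pi.single i g : Fin N → ℝ)‖ -
        ∑ i, (if 1 < ‖A *ᵥ (Pi.single i g : Fin N → ℝ)‖ then (1 : ℝ) else 0) := by
    rw [← Finset.sum_sub_distrib]
    exact Finset.sum_le_sum fun i _ => h1 _
  have h4 := hmin _ h0
  unfold Gf at h4
  rw [hd] at h4
  have h5 := mul_le_mul_of_nonneg_left h2 (show 0 ≤ 1 / κ by positivity)
  have h6 := mul_le_mul_of_nonneg_left h3 (show (0 : ℝ) ≤ (N : ℝ) + 1 by positivity)
  have h7 : (1 / κ) * ∑ ω ∈ univ.filter (fun ω => 1 < ‖A *ᵥ Δ ω‖), w ω +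
      ((N : ℝ) + 1) * ∑ i, (if 1 < ‖A *ᵥ (Pi.single i g : Fin N → ℝ)‖ then (1 : ℝ) else 0) < N + 1 / 2 := by
    have e1 : (1 / κ) * (∑ ω, w ω * rho ‖A *ᵥ Δ ω‖ - ∑ ω ∈ univ.filter (fun ω => 1 < ‖A *ᵥ Δ ω‖), w ω) =
      (1 / κ) * ∑ ω, w ω * rho ‖A *ᵥ Δ ω‖ - (1 / κ) * ∑ ω ∈ univ.filter (fun ω => 1 < ‖A *ᵥ Δ ω‖), w ω := by ring
    rw [e1] at h5
    rw [mul_sub] at h6
    linarith
  have h8 : 0 ≤ ∑ ω ∈ univ.filter (fun ω => 1 < ‖A *ᵥ Δ ω‖), w ω := Finset.sum_nonneg fun ω _ => hw ω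
  have h9 : 0 ≤ ∑ i, (if 1 < ‖A *ᵥ (Pi.single i g : Fin N → ℝ)‖ then (1 : ℝ) else 0) :=
    Finset.sum_nonneg fun i _ => by split_ifs <;> norm_num
  refine ⟨?_, fun i => ?_⟩
  · have a1 : 0 ≤ ((N : ℝ) + 1) * ∑ i, (if 1 < ‖A *ᵥ (Pi.single i g : Fin N → ℝ)‖ then (1 : ℝ) else 0) := by
      positivity
    have a2 : (1 / κ) * ∑ ω ∈ univ.filter (fun ω => 1 < ‖A *ᵥ Δ ω‖), w ω ≤ N + 1 := by linarith
    rw [one_div, inv_mul_le_iff₀ hκ] at a2
    linarith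
  · by_contra hc
    push Not at hc
    have a1 : (1 : ℝ) ≤ ∑ i, (if 1 < ‖A *ᵥ (Pi.single i g : Fin N → ℝ)‖ then (1 : ℝ) else 0) := by
      have a2 := Finset.single_le_sum (f := fun i => (if 1 < ‖A *ᵥ (Pi.single i g : Fin N → ℝ)‖ then (1 : ℝ) else 0))
        (fun i _ => by split_ifs <;> norm_num) (Finset.mem_univ i)
      beta_reduce at a2
      rw [if_pos hc] at a2
      exact a2
    have a3 : 0 ≤ (1 / κ) * ∑ ω ∈ univ.filter (fun ω => 1 < ‖A *ᵥ Δ ω‖), w ω := by positivity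
    have a4 : (N : ℝ) + 1 ≤ ((N : ℝ) + 1) * ∑ i, (if 1 < ‖A *ᵥ (Pi.single i g : Fin N → ℝ)‖ then (1 : ℝ) else 0) := by
      nlinarith
    linarith

/-- one row of a frame is replaced by the covector `ν / c` -/
def rowc (A : Matrix (Fin N) (Fin N) ℝ) (i : Fin N) (ν : Fin N → ℝ) (c : ℝ) : Matrix (Fin N) (Fin N) ℝ :=
  A.updateRow i (c⁻¹ • ∑ k, ν k • A k)

theorem det_rowc (A : Matrix (Fin N) (Fin N) ℝ) (i : Fin N) (ν : Fin N → ℝ) (c : ℝ) :
    (rowc A i ν c).det = c⁻¹ * (ν i * A.det) := by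
  unfold rowc
  rw [Matrix.det_updateRow_smul, Matrix.det_updateRow_sum]
  rfl

theorem rowc_mulVec (A : Matrix (Fin N) (Fin N) ℝ) (i : Fin N) (ν : Fin N → ℝ) (c : ℝ) (x : Fin N → ℝ) :
    rowc A i ν c *ᵥ x = Function.update (A *ᵥ x) i (c⁻¹ * (ν ⬝ᵥ (A *ᵥ x))) := by
  funext j
  unfold rowc Matrix.mulVec
  by_cases h : j = i
  · subst h
    rw [Function.update_self]
    show Matrix.updateRow A j (c⁻¹ • ∑ k, ν k • A k) j ⬝ᵥ x = _
    rw [Matrix.updateRow_self, smul_dotProduct, smul_eq_mul]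
    congr 1
    unfold dotProduct
    simp only [Finset.sum_apply, Pi.smul_apply, smul_eq_mul, Finset.sum_mul, Finset.mul_sum]
    rw [Finset.sum_comm]
    refine Finset.sum_congr rfl fun k _ => Finset.sum_congr rfl fun l _ => ?_
    ring
  · rw [Function.update_of_ne h]
    show Matrix.updateRow A i (c⁻¹ • ∑ k, ν k • A k) j ⬝ᵥ x = _
    rw [Matrix.updateRow_ne h]

theorem dot_le {ν y : Fin N → ℝ} (hν : ∑ i, |ν i| = 1) : |ν ⬝ᵥ y| ≤ ‖y‖ := by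
  have h1 : |ν ⬝ᵥ y| ≤ ∑ i, |ν i| * ‖y‖ := by
    unfold dotProduct
    refine (Finset.abs_sum_le_sum_abs _ _).trans (Finset.sum_le_sum fun i _ => ?_)
    rw [abs_mul]
    exact mul_le_mul_of_nonneg_left (norm_le_pi_norm y i) (abs_nonneg _)
  rw [← Finset.sum_mul, hν, one_mul] at h1
  exact h1

/-- the size in the new frame -/
theorem rowc_norm (A : Matrix (Fin N) (Fin N) ℝ) (i : Fin N) (ν : Fin N → ℝ) {c : ℝ} (hc : 0 < c) (x : Fin N → ℝ) :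
    ‖rowc A i ν c *ᵥ x‖ ≤ max ‖A *ᵥ x‖ (|ν ⬝ᵥ (A *ᵥ x)| / c) := by
  rw [rowc_mulVec, pi_norm_le_iff_of_nonneg ((norm_nonneg _).trans (le_max_left _ _))]
  intro j
  by_cases h : j = i
  · subst h
    rw [Function.update_self, Real.norm_eq_abs, abs_mul, abs_of_pos (inv_pos.mpr hc)]
    refine le_trans (le_of_eq ?_) (le_max_right _ _)
    ring
  · rw [Function.update_of_ne h]
    exact (norm_le_pi_norm _ j).trans (le_max_left _ _)

theorem rowc_rho (A : Matrix (Fin N) (Fin N) ℝ) (i : Fin N) {ν : Fin N → ℝ} (hν : ∑ i, |ν i| = 1) {c : ℝ}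
    (hc : 0 < c) (hc1 : c ≤ 1) (x : Fin N → ℝ) :
    rho ‖rowc A i ν c *ᵥ x‖ ≤ rho ‖A *ᵥ x‖ +
      (if c * max 1 ‖A *ᵥ x‖ ≤ |ν ⬝ᵥ (A *ᵥ x)| then 1 + Real.logb 2 (1 / c) else 0) := by
  have h1 := rowc_norm A i ν hc x
  split_ifs with h
  · have h2 : ‖rowc A i ν c *ᵥ x‖ ≤ ‖A *ᵥ x‖ / c := by
      refine h1.trans (max_le ?_ ?_)
      · rw [le_div_iff₀ hc]
        have := norm_nonneg (A *ᵥ x)
        nlinarith
      · exact div_le_div_of_nonneg_right (dot_le hν) hc.le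
    exact (rho_mono h2).trans (rho_mul hc hc1)
  · push Not at h
    rw [add_zero]
    have h2 : ‖rowc A i ν c *ᵥ x‖ ≤ max 1 ‖A *ᵥ x‖ := by
      refine h1.trans (max_le (le_max_right _ _) ?_)
      rw [div_le_iff₀ hc]
      linarith
    exact (rho_mono h2).trans (rho_max _).le

open Classical in
/-- (ii): every covector is seen by truncated vectors -/
theorem near_seen (w : Ω → ℝ) (hw : ∀ ω, 0 ≤ w ω) (Δ : Ω → Fin N → ℝ) {κ g : ℝ} (hκ : 0 < κ) (hN : 0 < N)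
    (A : Matrix (Fin N) (Fin N) ℝ) (hA : A.det ≠ 0)
    (hmin : ∀ A' : Matrix (Fin N) (Fin N) ℝ, A'.det ≠ 0 → Gf w Δ κ g (N + 1) A < Gf w Δ κ g (N + 1) A' + 1 / 2)
    {ν : Fin N → ℝ} (hν : ∑ i, |ν i| = 1)
    (hfl : ∀ i, |ν ⬝ᵥ (A *ᵥ (Pi.single i g : Fin N → ℝ))| < 1 / (4 * N)) :
    κ / (3 + Real.logb 2 N) ≤
      ∑ ω ∈ univ.filter (fun ω => 1 / (4 * N) * max 1 ‖A *ᵥ Δ ω‖ ≤ |ν ⬝ᵥ (A *ᵥ Δ ω)|), w ω := by
  have hNr : (1 : ℝ) ≤ N := by exact_mod_cast hN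
  have hN0 : (0 : ℝ) < N := by linarith
  obtain ⟨c, hc⟩ : ∃ c : ℝ, c = 1 / (4 * N) := ⟨_, rfl⟩
  have hc0 : 0 < c := by rw [hc]; positivity
  have hc1 : c ≤ 1 := by
    rw [hc, div_le_one (by positivity)]
    linarith
  have hL : 1 + Real.logb 2 (1 / c) = 3 + Real.logb 2 N := by
    rw [hc, one_div_one_div, Real.logb_mul (by norm_num) hN0.ne',
      show (4 : ℝ) = 2 ^ 2 by norm_num, Real.logb_pow, Real.logb_self_eq_one (by norm_num)]
    push_cast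
    ring
  rw [← hc] at hfl ⊢
  -- a large coordinate
  obtain ⟨i, hi⟩ : ∃ i, 1 / (N : ℝ) ≤ |ν i| := by
    by_contra hcon
    push Not at hcon
    have h1 : ∑ i, |ν i| < ∑ _i : Fin N, 1 / (N : ℝ) :=
      Finset.sum_lt_sum_of_nonempty ⟨⟨0, hN⟩, mem_univ _⟩ fun i _ => hcon i
    rw [hν, Finset.sum_const, Finset.card_univ, Fintype.card_fin, nsmul_eq_mul, mul_one_div_cancel hN0.ne'] at h1
    exact lt_irrefl _ h1
  have hi0 : 0 < |ν i| := lt_of_lt_of_le (by positivity) hi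
  have hdet : (rowc A i ν c).det ≠ 0 := by
    rw [det_rowc]
    exact mul_ne_zero (inv_ne_zero hc0.ne') (mul_ne_zero (abs_pos.mp hi0) hA)
  have hd : -Real.logb 2 |(rowc A i ν c).det| ≤ -Real.logb 2 |A.det| - 2 := by
    have e1 : |(rowc A i ν c).det| = (c⁻¹ * |ν i|) * |A.det| := by
      rw [det_rowc, abs_mul, abs_mul, abs_of_pos (inv_pos.mpr hc0)]
      ring
    have e2 : (4 : ℝ) ≤ c⁻¹ * |ν i| := by
      rw [hc, one_div, inv_inv]
      have : (1 : ℝ) ≤ N * |ν i| := by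
        rw [div_le_iff₀ hN0] at hi
        linarith
      nlinarith
    have e3 : (2 : ℝ) ≤ Real.logb 2 (c⁻¹ * |ν i|) := by
      rw [Real.le_logb_iff_rpow_le (by norm_num) (by linarith)]
      norm_num
      exact e2
    rw [e1, Real.logb_mul (by positivity) (abs_pos.mpr hA).ne']
    linarith
  have h1 := hmin _ hdet
  have h2 : ∑ ω, w ω * rho ‖rowc A i ν c *ᵥ Δ ω‖ ≤ ∑ ω, w ω * rho ‖A *ᵥ Δ ω‖ +
      (3 + Real.logb 2 N) * ∑ ω ∈ univ.filter (fun ω => c * max 1 ‖A *ᵥ Δ ω‖ ≤ |ν ⬝ᵥ (A *ᵥ Δ ω)|), w ω := by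
    have h3 : ∀ ω ∈ (univ : Finset Ω), w ω * rho ‖rowc A i ν c *ᵥ Δ ω‖ ≤ w ω * rho ‖A *ᵥ Δ ω‖ +
        (3 + Real.logb 2 N) * (if c * max 1 ‖A *ᵥ Δ ω‖ ≤ |ν ⬝ᵥ (A *ᵥ Δ ω)| then w ω else 0) := by
      intro ω _
      have h4 := mul_le_mul_of_nonneg_left (rowc_rho A i hν hc0 hc1 (Δ ω)) (hw ω)
      rw [hL] at h4
      refine h4.trans (le_of_eq ?_)
      split_ifs <;> ring
    refine (Finset.sum_le_sum h3).trans (le_of_eq ?_)
    rw [Finset.sum_add_distrib, ← Finset.mul_sum, Finset.sum_filter]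
  have h3 : ∑ j, rho ‖rowc A i ν c *ᵥ (Pi.single j g : Fin N → ℝ)‖ ≤
      ∑ j, rho ‖A *ᵥ (Pi.single j g : Fin N → ℝ)‖ := by
    refine Finset.sum_le_sum fun j _ => ?_
    have h4 := rowc_rho A i hν hc0 hc1 (Pi.single j g : Fin N → ℝ)
    rw [if_neg, add_zero] at h4
    · exact h4
    · push Not
      refine (hfl j).trans_le ?_
      have : (1 : ℝ) ≤ max 1 ‖A *ᵥ (Pi.single j g : Fin N → ℝ)‖ := le_max_left _ _
      nlinarith
  unfold Gf at h1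
  have h4 := mul_le_mul_of_nonneg_left h2 (show 0 ≤ 1 / κ by positivity)
  have h5 := mul_le_mul_of_nonneg_left h3 (show (0 : ℝ) ≤ (N : ℝ) + 1 by positivity)
  rw [mul_add] at h4
  obtain ⟨P, hP⟩ : ∃ P, P = ∑ ω ∈ univ.filter (fun ω => c * max 1 ‖A *ᵥ Δ ω‖ ≤ |ν ⬝ᵥ (A *ᵥ Δ ω)|), w ω := ⟨_, rfl⟩
  rw [← hP] at h4 ⊢
  have h6 : 3 / 2 ≤ 1 / κ * ((3 + Real.logb 2 N) * P) := by linarith
  have h7 : 0 < 3 + Real.logb 2 N := by
    have := Real.logb_nonneg (b := 2) (by norm_num) hNr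
    linarith
  rw [div_le_iff₀ h7]
  have h8 : κ * (3 / 2) ≤ (3 + Real.logb 2 N) * P := by
    have h9 := mul_le_mul_of_nonneg_left h6 hκ.le
    have e1 : κ * (1 / κ * ((3 + Real.logb 2 N) * P)) = (3 + Real.logb 2 N) * P := by
      field_simp
    rw [e1] at h9
    exact h9
  nlinarith

open Classical in
/-- **VISIBLE BODY**: a frame `A` for a finite law of vectors: the floor is inside, nearly all vectors are inside, and every
covector of the dual unit sphere is seen by a floor vector or by the truncated vectors of a mass `≥ κ / (3 + log N)` -/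
theorem vis (w : Ω → ℝ) (hw : ∀ ω, 0 ≤ w ω) (Δ : Ω → Fin N → ℝ) {κ g : ℝ} (hκ : 0 < κ) (hg : 0 < g) (hN : 0 < N) :
    ∃ A : Matrix (Fin N) (Fin N) ℝ, A.det ≠ 0 ∧ (∀ i, ‖A *ᵥ (Pi.single i g : Fin N → ℝ)‖ ≤ 1) ∧
      ∑ ω ∈ univ.filter (fun ω => 1 < ‖A *ᵥ Δ ω‖), w ω ≤ (N + 1) * κ ∧
      ∀ ν : Fin N → ℝ, ∑ i, |ν i| = 1 →
        (∃ i, 1 / (4 * N) ≤ |ν ⬝ᵥ (A *ᵥ (Pi.single i g : Fin N → ℝ))|) ∨
        κ / (3 + Real.logb 2 N) ≤
          ∑ ω ∈ univ.filter (fun ω => 1 / (4 * N) * max 1 ‖A *ᵥ Δ ω‖ ≤ |ν ⬝ᵥ (A *ᵥ Δ ω)|), w ω := by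
  obtain ⟨A, hA, hmin⟩ := exists_near w hw Δ hκ hg (show (1 : ℝ) ≤ (N : ℝ) + 1 by linarith [Nat.cast_nonneg (α := ℝ) N])
  obtain ⟨h1, h2⟩ := near_out w Δ hκ hw A hA hmin
  refine ⟨A, hA, h2, h1, fun ν hν => ?_⟩
  by_cases hfl : ∃ i, 1 / (4 * (N : ℝ)) ≤ |ν ⬝ᵥ (A *ᵥ (Pi.single i g : Fin N → ℝ))|
  · exact Or.inl hfl
  · push Not at hfl
    exact Or.inr (near_seen w hw Δ hκ hN A hA hmin hν hfl)

end

end Pool.Agent.Helper9.VB
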